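import Pool.Agent.helper33.GR2.Spec
import Pool.Agent.helper98.ILF.Lift

/-!
# g2:BCZ: a bounded holomorphic function without zeros is nearly constant near the centre
-/

set_option autoImplicit false

open Complex Metric Set Filter Topology MeasureTheory
open MPS (om)
open PPS (pre TT fd)
open XPS (Df er dens tau)
open Pool.Agent.helper16.Multibrot

noncomputable section

namespace GR

theorem BCZ : BCZ_stmt := by
  intro F a r M hr hM hF hFM hFa w hw
  have ha : a ∈ ball a r := mem_ball_self hr
  have hFa0 : F a ≠ 0 := (hFM a ha).1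
  obtain ⟨h, hh, hha, hhe⟩ := Pool.Agent.helper98.ILF.exists_lift_exp hr hF
    (fun y hy => (hFM y hy).1) (Complex.exp_log hFa0)
  set Q : ℝ := 1 + Real.log (2 * M) with hQ
  have hQ1 : 1 ≤ Q := by
    have : 0 ≤ Real.log (2 * M) := Real.log_nonneg (by linarith)
    linarith
  have hQ0 : 0 < Q := by linarith
  have hre : ∀ y ∈ ball a r, (h y).re = Real.log ‖F y‖ := by
    intro y hy
    rw [← hhe y hy, Complex.norm_exp, Real.log_exp]
  have hmem : ∀ z ∈ ball (0 : ℂ) r, a + z ∈ ball a r := by
    intro z hz
    rw [mem_ball_zero_iff] at hz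
    rw [mem_ball_iff_norm, add_sub_cancel_left]
    exact hz
  have hk : DifferentiableOn ℂ (fun z => h (a + z) - h a) (ball 0 r) := by
    refine DifferentiableOn.sub_const ?_ _
    exact hh.comp (by fun_prop) hmem
  have hkm : MapsTo (fun z => h (a + z) - h a) (ball 0 r) {z : ℂ | z.re ≤ Q} := by
    intro z hz
    show (h (a + z) - h a).re ≤ Q
    rw [Complex.sub_re, hre _ (hmem z hz), hre a ha]
    obtain ⟨h1, h2⟩ := hFM _ (hmem z hz)
    have h3 : Real.log ‖F (a + z)‖ ≤ Real.log M := Real.log_le_log (norm_pos_iff.mpr h1) h2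
    have h4 : Real.log (1 / 2) ≤ Real.log ‖F a‖ := Real.log_le_log (by norm_num) hFa
    have h5 : Real.log (1 / 2 : ℝ) = - Real.log 2 := by
      rw [one_div, Real.log_inv]
    have h6 : Real.log (2 * M) = Real.log 2 + Real.log M :=
      Real.log_mul (by norm_num) (by linarith)
    rw [hQ, h6]
    linarith
  have hz1 : ‖w - a‖ ≤ r / 256 := by
    refine hw.trans ?_
    apply div_le_div_of_nonneg_left hr.le (by norm_num)
    linarith
  have hz : w - a ∈ ball (0 : ℂ) r := by
    rw [mem_ball_zero_iff]
    linarith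
  have hbc := Complex.borelCaratheodory_zero hQ0 hk hkm hr hz (by
    show h (a + 0) - h a = 0
    rw [add_zero, sub_self])
  have hkz : ‖h (a + (w - a)) - h a‖ ≤ 1 / 64 := by
    refine hbc.trans ?_
    have h1 : 0 < r - ‖w - a‖ := by linarith
    rw [div_le_iff₀ h1]
    have h2 : Q * ‖w - a‖ ≤ r / 256 := by
      have h3 := mul_le_mul_of_nonneg_left hw hQ0.le
      have h4 : Q * (r / (256 * Q)) = r / 256 := by
        field_simp
      rw [h4] at h3
      exact h3
    have h5 := norm_nonneg (w - a)
    nlinarith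
  have haw : a + (w - a) = w := by ring
  rw [haw] at hkz
  have hwm : w ∈ ball a r := by
    rw [mem_ball_iff_norm]
    rwa [mem_ball_zero_iff] at hz
  have he : F w / F a = Complex.exp (h w - h a) := by
    rw [Complex.exp_sub, hhe w hwm, hhe a ha]
  rw [he]
  refine (Complex.norm_exp_sub_one_le (hkz.trans (by norm_num))).trans ?_
  linarith

end GR
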